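import Pool.Agent.Results.MP_c076ed_nt.FewExceptionalUnicritical
import Pool.Agent.Y854.GM.Win

/-!
# Uniform boundedness for all parameters in windows

The height `H(c)` of a rational number is the maximum of `|numerator|` and denominator. Let `v ≥ 1` be a sequence with
exponent of convergence at most `τ` (for `v_k = k ^ b` this is `1 / b`, for `v_k = b ^ k` or `k!` it is `0`) and `θ < 1`. For
all `α > 0` outside a set of Hausdorff dimension at most `τ / (1 - θ)` and all `d ≥ 2` there is `N` such that for all but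
finitely many `k` and ALL rational numbers `c` with `|H(c) - α v_k| ≤ v_k ^ θ` the map `z ^ d + c` has at most `N` rational
preperiodic points.
-/

set_option autoImplicit false

open Filter Topology
open scoped ENNReal

namespace Pool.Agent.Results.MP_c076ed_nt.EveryParameterInWindows

open FewExceptionalUnicritical (preperiodic exceptional)

/-- the exponent of convergence of the sequence `v` is at most `τ` -/
def ExpLe (v : ℕ → ℝ) (τ : ℝ) : Prop := ∀ t : ℝ, τ < t → Summable (fun n : ℕ => (v n) ^ (-t))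

/-- the height of a rational number -/
def height (c : ℚ) : ℕ := max c.num.natAbs c.den

lemma height_le (c : ℚ) (X : ℝ) : (height c : ℝ) ≤ X ↔ ((|c.num| : ℤ) : ℝ) ≤ X ∧ (c.den : ℝ) ≤ X := by
  unfold height
  rw [Nat.cast_max, max_le_iff, Nat.cast_natAbs]

lemma one_degree (d : ℕ) (hd : 2 ≤ d) {v : ℕ → ℝ} {τ θ : ℝ} (hv : ∀ k, 1 ≤ v k) (hτ : 0 ≤ τ) (hE : ExpLe v τ)
    (hθ1 : θ < 1) :
    ∃ E : Set ℝ, dimH E ≤ ENNReal.ofReal (τ / (1 - θ)) ∧ ∀ α : ℝ, 0 < α → α ∉ E → ∃ N k₀ : ℕ,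
      ∀ k : ℕ, k₀ ≤ k → ∀ c : ℚ, |(height c : ℝ) - α * v k| ≤ (v k) ^ θ → (preperiodic d c).encard ≤ N := by
  have hall : ∀ j : ℕ, ∃ (N : ℕ) (E : Set ℝ), dimH E ≤ ENNReal.ofReal ((1 / ((j : ℝ) + 1) + τ) / (1 - θ)) ∧
      ∀ α : ℝ, 0 < α → α ∉ E → ∃ k₀ : ℕ, ∀ k : ℕ, k₀ ≤ k → ∀ c ∈ {c : ℚ | (N : ℕ∞) < (preperiodic d c).encard},
        (v k) ^ θ < |(height c : ℝ) - α * v k| := by
    intro j
    obtain ⟨N, C, h⟩ := FewExceptionalUnicritical.result d hd (1 / ((j : ℝ) + 1)) (by positivity)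
    obtain ⟨E, h3, h4⟩ := Pool.Agent.Y854.GM.windows {c : ℚ | (N : ℕ∞) < (preperiodic d c).encard}
      (fun c => (height c : ℝ)) hv hτ hE (s := 1 / ((j : ℝ) + 1)) (by positivity) hθ1 (fun ε hε => by
        refine ⟨max C 0, fun X hX => ?_⟩
        have hset : {t | t ∈ {c : ℚ | (N : ℕ∞) < (preperiodic d c).encard} ∧ (height t : ℝ) ≤ X} =
            exceptional d N X := by
          ext c
          constructor
          · rintro ⟨h1, h2⟩
            obtain ⟨h5, h6⟩ := (height_le c X).1 h2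
            exact ⟨h5, h6, h1⟩
          · rintro ⟨h5, h6, h1⟩
            exact ⟨h1, (height_le c X).2 ⟨h5, h6⟩⟩
        rw [hset]
        obtain ⟨h5, h6⟩ := h X hX
        refine ⟨h5, h6.trans ?_⟩
        calc C * X ^ (1 / ((j : ℝ) + 1)) ≤ max C 0 * X ^ (1 / ((j : ℝ) + 1)) :=
              mul_le_mul_of_nonneg_right (le_max_left _ _) (by positivity)
          _ ≤ max C 0 * X ^ (1 / ((j : ℝ) + 1) + ε) := by
              apply mul_le_mul_of_nonneg_left _ (le_max_right _ _)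
              exact Real.rpow_le_rpow_of_exponent_le hX (by linarith))
    exact ⟨N, E, h3, h4⟩
  choose N E h1 h2 using hall
  have hlim : Tendsto (fun m : ℕ => ENNReal.ofReal ((1 / ((m : ℝ) + 1) + τ) / (1 - θ))) atTop
      (𝓝 (ENNReal.ofReal ((0 + τ) / (1 - θ)))) :=
    ENNReal.tendsto_ofReal ((tendsto_one_div_add_atTop_nhds_zero_nat.add_const τ).div_const (1 - θ))
  rw [zero_add] at hlim
  refine ⟨⋂ m, E m, ge_of_tendsto' hlim fun m => (dimH_mono (Set.iInter_subset _ m)).trans (h1 m),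
    fun α hα hαE => ?_⟩
  rw [Set.mem_iInter] at hαE
  push Not at hαE
  obtain ⟨j, hj⟩ := hαE
  obtain ⟨k₀, hk⟩ := h2 j α hα hj
  refine ⟨N j, k₀, fun k hk1 c hc => ?_⟩
  by_contra hcon
  rw [not_le] at hcon
  exact absurd hc (not_le.2 (hk k hk1 c hcon))

/-- **Theorem.** Let `v ≥ 1` be a sequence of exponent of convergence at most `τ ≥ 0` and `θ < 1`. There is a set `E` of
Hausdorff dimension at most `τ / (1 - θ)` such that for each `α > 0` outside `E` and each `d ≥ 2` there are `N` and `k₀` such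
that for all `k ≥ k₀` and ALL rational numbers `c` with `|H(c) - α v_k| ≤ v_k ^ θ`, `H(c)` the height, the map `z ^ d + c` has
at most `N` rational preperiodic points. The sequences `v_k = (k + 1) ^ b` and `v_k = b ^ k` have exponent of convergence at
most `1 / b` and `0`. -/
theorem result :
    (∀ (v : ℕ → ℝ) (τ θ : ℝ), (∀ n, 1 ≤ v n) → 0 ≤ τ → ExpLe v τ → θ < 1 →
      ∃ E : Set ℝ, dimH E ≤ ENNReal.ofReal (τ / (1 - θ)) ∧ ∀ α : ℝ, 0 < α → α ∉ E → ∀ d : ℕ, 2 ≤ d →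
        ∃ N k₀ : ℕ, ∀ k : ℕ, k₀ ≤ k → ∀ c : ℚ, |(height c : ℝ) - α * v k| ≤ (v k) ^ θ →
          (preperiodic d c).encard ≤ N) ∧
    (∀ b : ℝ, 0 < b → ExpLe (fun n : ℕ => ((n : ℝ) + 1) ^ b) (1 / b)) ∧
    (∀ b : ℝ, 1 < b → ExpLe (fun n : ℕ => b ^ n) 0) := by
  refine ⟨fun v τ θ hv hτ hE hθ1 => ?_,
    fun κ hκ => Pool.Agent.Y854.GM.expLe_pow κ hκ, fun κ hκ => Pool.Agent.Y854.GM.expLe_geom κ hκ⟩
  have hall : ∀ i : ℕ, _ := fun i => one_degree (i + 2) (by omega) hv hτ hE hθ1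
  choose E hE1 hE2 using hall
  refine ⟨⋃ i, E i, ?_, fun α hα hαE d hd => ?_⟩
  · rw [dimH_iUnion]
    exact iSup_le hE1
  · rw [Set.mem_iUnion] at hαE
    push Not at hαE
    obtain ⟨i, rfl⟩ : ∃ i, d = i + 2 := ⟨d - 2, by omega⟩
    exact hE2 i α hα (hαE i)

end Pool.Agent.Results.MP_c076ed_nt.EveryParameterInWindows
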