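import Pool.Agent.Y673.PP.Fin

/-!
# MP_c076ed_nt: few rational parameters with many rational preperiodic points

For every `d ≥ 2` and `ε > 0` there are `N` and `C` such that for `X ≥ 1` at most `C X ^ ε` rational
numbers `c` with numerator and denominator at most `X` in absolute value are such that `z ^ d + c` has
more than `N` rational preperiodic points.  (There are about `X ^ 2` such `c`.  For `d = 2` the
polynomials `z ^ 2 + c` represent all quadratic polynomials over `ℚ` up to conjugation.)

Proof.  Let `z` be a rational preperiodic point of `w ^ d + c` whose first coincidence
`f^i(z) = f^j(z)`, `i < j`, has `j > N₀`.  With a denominator `v ≤ X` of `c` all numbers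
`u_i = v f^i(z)` are integers bounded by `2 X ^ (d + 1)`.  For a prime `q` of size `X ^ (η)` not dividing
`v` we consider the residue class of `(c, z)` modulo `q`.  By the pigeonhole principle there is an
integral linear combination `F(c, z)` of the products `c ^ j (f^0(z))^(n₀) ⋯ (f^K(z))^(n_K)` with small
coefficients which is divisible by a high power of `q` for all points of the class; the value at a
preperiodic point is much smaller than its degree in `z` suggests, as all iterates of `z` are bounded.
So all the points of the class lie on the curve `F = 0`, whose degree depends on `d` and `ε` only.  On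
an irreducible component `G` of such a curve, on which no `f^i - f^j` with `j ≤ N₀` vanishes, the functions
`f^i` have large degree (a growth argument at a place at infinity), so for `K` large no combination of
`c ^ j (f^K)^b` with `j, b < d₀` vanishes on `G`; a second application of the pigeonhole
principle to the residue classes of points on the curve gives such a combination which vanishes at all
points of the class.  So there are at most `C` exceptional points in each of `X ^ (C η)` classes.
-/

set_option autoImplicit false

namespace Pool.Agent.Results.MP_c076ed_nt.FewExceptionalUnicritical

/-- The rational numbers with a finite forward orbit under `w ↦ w ^ d + c`. -/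
def preperiodic (d : ℕ) (c : ℚ) : Set ℚ :=
  {z | (Set.range fun k : ℕ => (fun w : ℚ => w ^ d + c)^[k] z).Finite}

/-- The rational numbers `c` with numerator and denominator at most `X` in absolute value such that
`w ^ d + c` has more than `N` rational preperiodic points (or infinitely many). -/
def exceptional (d N : ℕ) (X : ℝ) : Set ℚ :=
  {c | ((|c.num| : ℤ) : ℝ) ≤ X ∧ (c.den : ℝ) ≤ X ∧ (N : ℕ∞) < (preperiodic d c).encard}

/-- **Few exceptions.**  For `d ≥ 2` and `ε > 0` there are `N` and `C` such that for `X ≥ 1` there are
at most `C X ^ ε` exceptional parameters of height at most `X`. -/
theorem result (d : ℕ) (hd : 2 ≤ d) (ε : ℝ) (hε : 0 < ε) :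
    ∃ (N : ℕ) (C : ℝ), ∀ X : ℝ, 1 ≤ X →
      (exceptional d N X).Finite ∧ ((exceptional d N X).ncard : ℝ) ≤ C * X ^ ε :=
  Pool.Agent.Y673.PP.few_rat hd ε hε

end Pool.Agent.Results.MP_c076ed_nt.FewExceptionalUnicritical
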