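import Mathlib
import Pool.Agent.Y902.GN.Dy5
import Pool.Agent.Y902.GN.FinB

/-!
# Rational preperiodic points of polynomials a z^d + g(z) + c of large degree

For all `k`, `E` and `ε > 0` there are `d₀ > k` and `δ > 0` such that for every `Y ≥ 1`, every
rational `a ≠ 0` and every polynomial `g` of degree at most `k` with rational coefficients, `a` and
all coefficients of `g` being of height at most `Y ^ E`, there are at most `Y ^ ε` pairs `(d, c)` with
`d₀ ≤ d ≤ Y ^ δ` and `c` rational of height at most `Y ^ d` for which the polynomial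
`a z ^ d + g(z) + c` has more than three preperiodic points in `ℚ`.

So the bound three holds for all these polynomials, of all the degrees `d` together, with at most
`Y ^ ε` exceptions for given `a` and `g`, uniformly in `a` and `g`. Already the case `a = 1`, `g = 0`
of the polynomials `z ^ d + c` is new to us.

Method: for two nonzero preperiodic points `x ≠ ± y` the number `a * (x ^ d - y ^ d)` has height at
most a fixed power of `Y`. By the determinant method in an ultraproduct, with the unbounded exponent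
as a coefficient, such pairs `(x, y)` are at most `Y ^ ε` in number, all `d` together. If there are
more than three preperiodic points, then all nonzero ones belong to such pairs.
-/

set_option autoImplicit false

namespace Pool.Agent.Results.MP_c076ed_nt.LargeDegreePolynomials

open Pool.Agent.Y902.GN

/-- the height of `q` is at most `B` -/
def HeightLE (B : ℕ) (q : ℚ) : Prop := |q.num| ≤ (B : ℤ) ∧ q.den ≤ B

/-- the polynomial map `z ↦ a z ^ d + g(z) + c` -/
def poly (a : ℚ) (g : Polynomial ℚ) (d : ℕ) (c : ℚ) (z : ℚ) : ℚ := a * z ^ d + g.eval z + c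

/-- the rational numbers with finite forward orbit -/
def preperiodic (f : ℚ → ℚ) : Set ℚ := {z | (Set.range fun n : ℕ => f^[n] z).Finite}

/-- the pairs `(d, c)` with `d₀ ≤ d ≤ Y ^ δ`, `c` of height at most `Y ^ d`, such that
`a z ^ d + g(z) + c` has more than three preperiodic points in `ℚ` -/
def exceptional (a : ℚ) (g : Polynomial ℚ) (d₀ : ℕ) (δ : ℝ) (Y : ℕ) : Set (ℕ × ℚ) :=
  {t | d₀ ≤ t.1 ∧ (t.1 : ℝ) ≤ (Y : ℝ) ^ δ ∧ HeightLE (Y ^ t.1) t.2 ∧
    3 < (preperiodic (poly a g t.1 t.2)).encard}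

/-- For all `k`, `E` and `ε > 0` there are `d₀ > k` and `δ > 0` such that for all `Y ≥ 1`, all
rational `a ≠ 0` of height at most `Y ^ E` and all `g` of degree at most `k` with rational
coefficients of height at most `Y ^ E` there are at most `Y ^ ε` pairs `(d, c)` with
`d₀ ≤ d ≤ Y ^ δ` and `c` of height at most `Y ^ d` such that `a z ^ d + g(z) + c` has more than three
rational preperiodic points. -/
theorem result (k E : ℕ) (ε : ℝ) (hε : 0 < ε) : ∃ (d₀ : ℕ) (δ : ℝ), k < d₀ ∧ 0 < δ ∧
    ∀ Y : ℕ, 1 ≤ Y → ∀ (a : ℚ) (g : Polynomial ℚ), a ≠ 0 → HeightLE (Y ^ E) a →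
      g.natDegree ≤ k → (∀ i, HeightLE (Y ^ E) (g.coeff i)) →
      (exceptional a g d₀ δ Y).Finite ∧ ((exceptional a g d₀ δ Y).ncard : ℝ) ≤ (Y : ℝ) ^ ε := by
  obtain ⟨d₁, δ, hδ, H⟩ := main_cl k E ε hε
  refine ⟨d₁ + k + 1, δ, by omega, hδ, fun Y hY a g ha ha2 hg hgc => ?_⟩
  refine fin_of_bound _ _ fun T hT => ?_
  refine H Y hY a 0 g ha ha2 (HtLe.zero.mono (Nat.one_le_pow _ _ hY)) hg hgc T fun t ht => ?_
  obtain ⟨h1, h2, h3, h4⟩ := hT t ht
  refine ⟨by omega, h2, h3, preperiodic (poly a g t.1 t.2), h4, fun w hw => ?_⟩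
  have hit : ∀ (n m : ℕ), (poly a g t.1 t.2)^[m] ((poly a g t.1 t.2)^[n] w) =
      (poly a g t.1 t.2)^[m + n] w := fun n m => (Function.iterate_add_apply _ m n w).symm
  refine ⟨Set.range fun n : ℕ => (poly a g t.1 t.2)^[n] w, ?_, ⟨0, rfl⟩, hw, ?_⟩
  · rintro _ ⟨n, rfl⟩
    refine Set.Finite.subset hw ?_
    rintro _ ⟨m, rfl⟩
    exact ⟨m + n, (hit n m).symm⟩
  · rintro _ ⟨n, rfl⟩
    refine ⟨(poly a g t.1 t.2)^[n + 1] w, ⟨n + 1, rfl⟩, (poly a g t.1 t.2)^[n] w, ⟨n, rfl⟩, ?_⟩
    simp only [Function.iterate_succ_apply']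
    rw [show poly a g t.1 t.2 ((poly a g t.1 t.2)^[n] w) =
      a * ((poly a g t.1 t.2)^[n] w) ^ t.1 + g.eval ((poly a g t.1 t.2)^[n] w) + t.2 from rfl]
    ring

end Pool.Agent.Results.MP_c076ed_nt.LargeDegreePolynomials
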