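import Mathlib
import Pool.Agent.Y706.CH.Upo2
import Pool.Agent.Results.MP_9b502d_nt.AnyTranscendenceDegree

/-!
# One bound for the rational preperiodic points of 100% of the members of every family over `ℚ`

For every algebraic family of endomorphisms of `ℙ¹` of degree `d ≥ 2` over `ℚ`, with any number of
parameters, the rational preperiodic points of 100% of the members are exactly the specialisations
of the rational preperiodic points of the generic member, without collisions and with the same
directed graph of preperiodic points; and if the family is not constant, there are at most `N(d)`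
of them, where `N(d)` depends on nothing but `d`.

The first part comes from a transfer to the ultrapower of `ℚ` along an ultrafilter on the parameters
without sets of upper density zero, in which the field of rational functions in the parameters is
relatively algebraically closed, and from the finiteness theorem for the generic member. The bound
comes from the uniform boundedness theorem for all rational maps over purely transcendental
extensions (`Results/MP_9b502d_nt/AnyTranscendenceDegree.lean`).
-/

set_option autoImplicit false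

namespace Pool.Agent.Results.MP_c076ed_nt.UniformPortrait

open MvPolynomial Filter Topology

/-- The forms have no common zero over the algebraic closure other than the origin. -/
def IsMorphism {K : Type} [Field K] (F : Fin 2 → MvPolynomial (Fin 2) K) : Prop :=
  ∀ x : Fin 2 → AlgebraicClosure K, (∀ i, aeval x (F i) = 0) → x = 0

/-- The vector of the values of the forms. -/
noncomputable def image {K : Type} [Field K] (F : Fin 2 → MvPolynomial (Fin 2) K)
    (x : Fin 2 → K) : Fin 2 → K := fun i => eval x (F i)

/-- The point of `ℙ¹(K)` with homogeneous coordinates `x` is preperiodic: its forward orbit, as a set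
of lines in the plane `K²`, is finite. -/
def IsPreperiodic {K : Type} [Field K] (F : Fin 2 → MvPolynomial (Fin 2) K) (x : Fin 2 → K) : Prop :=
  (Set.range fun j : ℕ => Submodule.span K {(image F)^[j] x}).Finite

/-- The vectors `y 0, ..., y (r - 1)` are homogeneous coordinates of the preperiodic points of `F` in
`ℙ¹(K)`, each point occurs once, and `F` maps the `i`-th point to the point with the number `σ i`. -/
def IsPortrait {K : Type} [Field K] {r : ℕ} (F : Fin 2 → MvPolynomial (Fin 2) K)
    (y : Fin r → Fin 2 → K) (σ : Fin r → Fin r) : Prop :=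
  (∀ i, y i ≠ 0) ∧ (∀ i j, ∀ c : K, y i = c • y j → i = j) ∧
  (∀ i, ∃ c : K, c ≠ 0 ∧ image F (y i) = c • y (σ i)) ∧
  ∀ z : Fin 2 → K, z ≠ 0 → (IsPreperiodic F z ↔ ∃ i, ∃ c : K, z = c • y i)

/-- The rational number vector `t = (v_1 / v_0, ..., v_m / v_0)`. -/
def ratio {m : ℕ} (v : Fin (m + 1) → ℤ) (l : Fin m) : ℚ := (v l.succ : ℚ) / (v 0 : ℚ)

/-- The set `S` contains 100% of the integer vectors in the boxes `|v_l| ≤ H`. -/
def AlmostAll (m : ℕ) (S : Set (Fin (m + 1) → ℤ)) : Prop :=
  Tendsto (fun H : ℕ => (({v | (∀ l, |v l| ≤ (H : ℤ)) ∧ v ∈ S}.ncard : ℝ) /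
    (({v : Fin (m + 1) → ℤ | ∀ l, |v l| ≤ (H : ℤ)}).ncard : ℝ))) atTop (𝓝 1)

/-- The field `ℚ(t_1, ..., t_m)`. -/
abbrev RF (m : ℕ) : Type := FractionRing (MvPolynomial (Fin m) ℚ)

/-- The generic member: the forms `F_0, F_1` over `ℚ(t_1, ..., t_m)`. -/
noncomputable def generic {m : ℕ} (F : Fin 2 → MvPolynomial (Fin 2) (MvPolynomial (Fin m) ℚ)) :
    Fin 2 → MvPolynomial (Fin 2) (RF m) :=
  fun i => (F i).map (algebraMap (MvPolynomial (Fin m) ℚ) (RF m))

/-- The member at `t = (v_1 / v_0, ..., v_m / v_0)`. -/
noncomputable def member {m : ℕ} (F : Fin 2 → MvPolynomial (Fin 2) (MvPolynomial (Fin m) ℚ))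
    (v : Fin (m + 1) → ℤ) : Fin 2 → MvPolynomial (Fin 2) ℚ :=
  fun i => (F i).map (eval (ratio v))

/-- The polynomial `G(x, 1)` in one variable for a binary form `G`. -/
noncomputable def affine {K : Type} [Field K] (G : MvPolynomial (Fin 2) K) : Polynomial K :=
  aeval ![Polynomial.X, 1] G

/-- The endomorphism `f = [F_0 : F_1]` of `ℙ¹` of degree `d` over `K` is constant: it is conjugate
over `K` to a map with coefficients algebraic over `ℚ` (for `K = ℚ(t_1, ..., t_m)` these are the
rational numbers). That is, for `φ(x) = (a x + b) / (c x + e)` with some `a, b, c, e` in `K`,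
`a e ≠ b c`, and some polynomials `u, w` of degree at most `d`, not both zero, with coefficients
algebraic over `ℚ`, the rational function `p / q`, where `p = F_0(x, 1)` and `q = F_1(x, 1)`,
satisfies `φ ∘ (p / q) = (u / w) ∘ φ`; the equation is written with denominators cleared. -/
def IsConstant {K : Type} [Field K] [Algebra ℚ K] (F : Fin 2 → MvPolynomial (Fin 2) K)
    (d : ℕ) : Prop :=
  ∃ a b c e : K, a * e - b * c ≠ 0 ∧ ∃ u w : Polynomial K, (u ≠ 0 ∨ w ≠ 0) ∧
    u.natDegree ≤ d ∧ w.natDegree ≤ d ∧ (∀ n, IsAlgebraic ℚ (u.coeff n)) ∧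
    (∀ n, IsAlgebraic ℚ (w.coeff n)) ∧
    (Polynomial.C a * affine (F 0) + Polynomial.C b * affine (F 1)) *
      ∑ i ∈ Finset.range (d + 1), Polynomial.C (w.coeff i) *
        (Polynomial.C a * Polynomial.X + Polynomial.C b) ^ i *
        (Polynomial.C c * Polynomial.X + Polynomial.C e) ^ (d - i) =
    (Polynomial.C c * affine (F 0) + Polynomial.C e * affine (F 1)) *
      ∑ i ∈ Finset.range (d + 1), Polynomial.C (u.coeff i) *
        (Polynomial.C a * Polynomial.X + Polynomial.C b) ^ i *
        (Polynomial.C c * Polynomial.X + Polynomial.C e) ^ (d - i)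

/-- There is a function `N` with the following property. Let `F_0, F_1` be binary forms of degree
`d ≥ 2` with coefficients in `ℚ[t_1, ..., t_m]` and without a common zero over the algebraic closure
of `ℚ(t_1, ..., t_m)`: a family of endomorphisms of `ℙ¹` of degree `d`, with any number `m` of
parameters. There are `r` vectors `x_i` of two polynomials in `ℚ[t_1, ..., t_m]` and a map `σ` of the
set of the indices to itself such that

* `r ≤ N(d)`, unless the generic member is constant, that is, conjugate over `ℚ(t_1, ..., t_m)` to a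
  map over `ℚ`;
* the `x_i` are the homogeneous coordinates of the preperiodic points of the generic member `F` in
  `ℙ¹(ℚ(t_1, ..., t_m))`, without repetitions, and `F` maps the `i`-th point to the `σ(i)`-th;
* for 100% of the integer vectors `v = (v_0, ..., v_m)`, with `t = (v_1 / v_0, ..., v_m / v_0)`, the
  member `F_t` is an endomorphism of `ℙ¹`, the vectors `x_i(t)` are the homogeneous coordinates of
  all the preperiodic points of `F_t` in `ℙ¹(ℚ)`, without repetitions, and `F_t` maps the `i`-th point
  to the `σ(i)`-th; so `F_t` has exactly `r` rational preperiodic points. -/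
theorem result : ∃ N : ℕ → ℕ, ∀ (d : ℕ), 2 ≤ d → ∀ (m : ℕ)
    (F : Fin 2 → MvPolynomial (Fin 2) (MvPolynomial (Fin m) ℚ)), (∀ i, (F i).IsHomogeneous d) →
    IsMorphism (generic F) →
    ∃ (r : ℕ) (x : Fin r → Fin 2 → MvPolynomial (Fin m) ℚ) (σ : Fin r → Fin r),
      (¬ IsConstant (generic F) d → r ≤ N d) ∧
      IsPortrait (generic F) (fun i j => algebraMap (MvPolynomial (Fin m) ℚ) (RF m) (x i j)) σ ∧
      AlmostAll m {v | v 0 ≠ 0 ∧ IsMorphism (member F v) ∧
        IsPortrait (member F v) (fun i j => eval (ratio v) (x i j)) σ} := by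
  obtain ⟨N, hN⟩ := Pool.Agent.Results.MP_9b502d_nt.AnyTranscendenceDegree.result.{0, 0}
  refine ⟨fun d => N d 0, ?_⟩
  intro d hd m F hF hmor
  obtain ⟨r, x, σ, h1, h2⟩ := Pool.Agent.Y706.portraitQ 1 d hd m F hF hmor
  refine ⟨r, x, σ, ?_, h1, h2⟩
  intro hcon
  have hpt : (⊤ : IntermediateField ℚ (RF m)).FG ∧
      Pool.Agent.Results.MP_9b502d_nt.AnyTranscendenceDegree.PurelyTranscendental ℚ (RF m) :=
    Pool.Agent.Y706.UPO.pt_any ℚ (Fin m) inferInstance _
  obtain ⟨c, hc0, hc⟩ := hN ℚ (RF m) (Or.inl hpt.1)
  have hc1 : c = 0 := hc0 hpt.2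
  subst hc1
  have hFK : ∀ i, (generic F i).IsHomogeneous d := fun i => (hF i).map _
  refine Pool.Agent.Y706.UPO.card_portrait (by omega) hFK hmor h1 ?_
  intro hco hmax
  have h3 := hc d hd _ _ hco hmax (by
    rintro ⟨a, b, c, e, hdet, u, w, h⟩
    exact hcon ⟨a, b, c, e, hdet, u, w, h⟩)
  have e : ∀ p q : Polynomial (RF m),
      Pool.Agent.Results.MP_9b502d_nt.AnyTranscendenceDegree.mapP1 p q d =
        Pool.Agent.W277.UH.ratP1 p q d := by
    intro p q
    funext z
    cases z <;> rfl
  rw [e] at h3
  exact h3

end Pool.Agent.Results.MP_c076ed_nt.UniformPortrait
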